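import Pool.Agent.Helper76.PC.Stmts

/-!
MP_c33217_co, module NADJ: soundness of the nonadjacency test.
-/

namespace Pool.Agent.Helper76.PC

theorem nadj_full (h1 : ST_LST) (h2 : ST_FULL) (G : Gr) (φ : ℕ → ℕ) (f : Bool) (K : Cfg)
    (hE : Emb G φ f K) (rx : Vx) (hx : rx ∈ K) (ry : Vx) (hy : ry ∈ K)
    (hf : full rx = true) (hm : memB ry.id rx.nb = false) : φ ry.id ∉ G.N (φ rx.id) := by
  intro hadj
  obtain ⟨_, _, h3⟩ := h2 G φ f K hE rx hx
  obtain ⟨z, hz, hzy⟩ := ((h3 hf).2.2 _).1 hadj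
  obtain ⟨q, hq, hqz⟩ := hE.cl rx hx z hz
  have h4 : q.id = ry.id := hE.inj q hq ry hy (by rw [hqz]; exact hzy)
  have h5 : ry.id ∈ rx.nb := by rw [← h4, hqz]; exact hz
  have h6 := (h1.1 ry.id rx.nb).2 h5
  rw [hm] at h6
  exact Bool.noConfusion h6

theorem st_NADJ (h1 : ST_LST) (h2 : ST_FULL) : ST_NADJ := by
  intro G φ f K hE rx hx ry hy hn
  unfold nonadjR at hn
  rw [Bool.or_eq_true, Bool.or_eq_true, Bool.and_eq_true, Bool.and_eq_true] at hn
  rcases hn with (⟨ha, hb⟩ | ⟨ha, hb⟩) | hc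
  · exact nadj_full h1 h2 G φ f K hE rx hx ry hy ha (by simpa using hb)
  · intro hadj
    exact nadj_full h1 h2 G φ f K hE ry hy rx hx ha (by simpa using hb) (G.symm _ _ hadj)
  · intro hadj
    have hany := h1.2.2.2.2.2.1
    have hget := h1.2.2.2.2.2.2.1
    rw [hany] at hc
    obtain ⟨p, hp, hc⟩ := hc
    rw [Bool.and_eq_true] at hc
    obtain ⟨hpy, hc⟩ := hc
    have hpy' : p ≠ ry.id := by
      intro h
      rw [h] at hpy
      simp at hpy
    cases hg : getV p K with
    | none => rw [hg] at hc; simp at hc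
    | some rp =>
      rw [hg] at hc
      simp only [] at hc
      rw [hany] at hc
      obtain ⟨q, hq, hc⟩ := hc
      rw [Bool.and_eq_true] at hc
      obtain ⟨hqx, hc⟩ := hc
      have hqx' : q ≠ rx.id := by
        intro h
        rw [h] at hqx
        simp at hqx
      have hqy : q ∈ ry.nb := (h1.1 _ _).1 hc
      obtain ⟨hrp, hrpid⟩ := hget p K rp hg
      have a1 : φ p ∈ G.N (φ rx.id) := hE.adj rx hx p hp
      have a2 : φ rx.id ∈ G.N (φ p) := G.symm _ _ a1
      have a3 : φ rx.id ∈ G.N (φ ry.id) := G.symm _ _ hadj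
      have a4 : φ q ∈ G.N (φ p) := by
        have := hE.adj rp hrp q hq
        rwa [hrpid] at this
      have a5 : φ q ∈ G.N (φ ry.id) := hE.adj ry hy q hqy
      have hne : φ p ≠ φ ry.id := by
        intro h
        apply hpy'
        have := hE.inj rp hrp ry hy (by rw [hrpid]; exact h)
        rw [hrpid] at this
        exact this
      have h7 := G.c4 _ _ hne _ _ a2 a3 a4 a5
      obtain ⟨rq, hrq, hrqid⟩ := hE.cl rp hrp q hq
      apply hqx'
      have := hE.inj rq hrq rx hx (by rw [hrqid]; exact h7.symm)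
      rw [hrqid] at this
      exact this

end Pool.Agent.Helper76.PC
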