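import Pool.Agent.Helper64.PC.Frc

/-!
# Module NEG: the countably closed forcing forces the negation of Q1
-/

namespace Pool.Agent.Helper58.PC

open Pool.Agent.Helper46.SP Pool.Agent.Helper94.SP Name
open Pool.Agent.Helper64.PC

variable {P : Type} [Preorder P] [OrderTop P]

omit [OrderTop P] in
theorem neg_fd {A : Set P} {q : P} {c : Prop} (hA : ∀ p q, p ∈ A → q ≤ p → q ∈ A)
    (h : ∀ s ≤ q, (s ∈ A ↔ c)) {s : P} (hs : s ≤ q) : Fd A s ↔ c := by
  rw [fd_iff hA]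
  constructor
  · intro h1
    obtain ⟨r, hr, hr'⟩ := h1 s le_rfl
    exact (h r (hr.trans hs)).1 hr'
  · intro hc r hr
    exact ⟨r, le_rfl, (h r (hr.trans hs)).2 hc⟩

/-- the name of a ground model function -/
def gn (g : ℕ → ℕ) : Name P := relN (fun i a => {_r | a = g i})

theorem fp_gn (g : ℕ → ℕ) (i a : ℕ) (p : P) : FP (gn g) i a p ↔ a = g i := by
  unfold gn
  rw [fp_relN, fd_const]

theorem nfun_gn (g : ℕ → ℕ) (p : P) : NFun (gn g) p := nfun_relN (FName.const p g)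

theorem neg_dec (hD : Pool.Agent.Helper64.PC.Dist P) {x : Name P} {p : P} (hx : NFun x p) :
    ∃ q ≤ p, ∃ g : ℕ → ℕ, ∀ i a, ∀ s ≤ q, (FP x i a s ↔ a = g i) := by
  obtain ⟨q, hq, g, hg⟩ := hD p ℕ ℕ hx.toFName
  refine ⟨q, hq, g, fun i a s hs => ⟨fun h => hg i a s hs h, ?_⟩⟩
  rintro rfl
  refine fmem_dense fun r hr => ?_
  obtain ⟨t, ht, m, hm⟩ := hx.2.1 i r (hr.trans (hs.trans hq))
  have : m = g i := hg i m t (ht.trans (hr.trans hs)) hm
  rw [← this]
  exact ⟨t, ht, hm⟩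

theorem neg_decR (hD : Pool.Agent.Helper64.PC.Dist P) (R : Name P) (p : P) :
    ∃ q ≤ p, ∃ S : ℕ → Set ℕ, ∀ i a, ∀ s ≤ q, (FP R i a s ↔ a ∈ S i) := by
  let b : FName P p (ℕ × ℕ) Bool :=
    { V := fun t c r => if c then FP R t.1 t.2 r else ∀ s ≤ r, ¬ FP R t.1 t.2 s
      mono := by
        intro t c r s h hs
        cases c
        · exact fun u hu => h u (hu.trans hs)
        · exact fmem_mono h hs
      total := by
        intro t r _
        by_cases h : ∃ s ≤ r, FP R t.1 t.2 s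
        · obtain ⟨s, hs, h⟩ := h
          exact ⟨s, hs, true, h⟩
        · push Not at h
          exact ⟨r, le_rfl, false, h⟩
      uniq := by
        intro t c c' r _ h h'
        cases c <;> cases c'
        · rfl
        · exact absurd h' (h r le_rfl)
        · exact absurd h (h' r le_rfl)
        · rfl }
  obtain ⟨q, hq, f, hf⟩ := hD p (ℕ × ℕ) Bool b
  refine ⟨q, hq, fun i => {a | f (i, a) = true}, fun i a s hs => ⟨fun h => ?_, fun h => ?_⟩⟩
  · exact (hf (i, a) true s hs h).symm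
  · refine fmem_dense fun r hr => ?_
    by_contra hcon
    push Not at hcon
    have h1 : false = f (i, a) := hf (i, a) false r (hr.trans hs) hcon
    have h2 : f (i, a) = true := h
    rw [h2] at h1
    exact Bool.noConfusion h1

section

variable (D : NegData P)

omit [OrderTop P] in
theorem neg_univ (p : P) : D.U Set.univ p := by
  refine D.dense _ _ fun q _ => ?_
  obtain ⟨r, hr, h | h⟩ := D.ultra Set.univ q
  · exact ⟨r, hr, h⟩
  · rw [Set.compl_univ] at h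
    exact absurd h (D.empty r)

theorem neg_mem (hG : ST_gen) (hD : Pool.Agent.Helper64.PC.Dist P) {X : ℕ → Set P} {Y : Set ℕ} {p : P}
    (h : ∀ i, ∀ s ≤ p, (Fd (X i) s ↔ i ∈ Y)) : FMem (rho X) (genF D) p ↔ D.U Y p := by
  rw [(hG P D hD).1]
  constructor
  · intro h1
    refine D.dense _ _ fun q hq => ?_
    obtain ⟨r, hr, Y', hY', hU⟩ := h1 q hq
    refine ⟨r, hr, ?_⟩
    have : Y' = Y := by
      ext i
      rw [← hY' i r le_rfl, h i r (hr.trans hq)]
    rwa [← this]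
  · intro h1 q hq
    exact ⟨q, le_rfl, Y, fun i s hs => h i s (hs.trans hq), D.mono _ _ _ h1 hq⟩

/-- equality of two ground model functions -/
theorem neg_fd_eq {x y : Name P} {q : P} {g h : ℕ → ℕ}
    (hx : ∀ i a, ∀ s ≤ q, (FP x i a s ↔ a = g i)) (hy : ∀ i a, ∀ s ≤ q, (FP y i a s ↔ a = h i))
    (i : ℕ) {s : P} (hs : s ≤ q) :
    Fd {s | ∃ a, FP x i a s ∧ FP y i a s} s ↔ i ∈ {i | g i = h i} := by
  refine neg_fd ?_ ?_ hs
  · rintro p r ⟨a, h1, h2⟩ hr
    exact ⟨a, h1.mono hr, h2.mono hr⟩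
  · intro t ht
    constructor
    · rintro ⟨a, h1, h2⟩
      rw [hx i a t ht] at h1
      rw [hy i a t ht] at h2
      exact h1.symm.trans h2
    · intro he
      refine ⟨g i, (hx i _ t ht).2 rfl, (hy i _ t ht).2 he⟩

theorem neg_fd_rel {x R : Name P} {q : P} {g : ℕ → ℕ} {S : ℕ → Set ℕ}
    (hx : ∀ i a, ∀ s ≤ q, (FP x i a s ↔ a = g i))
    (hR : ∀ i a, ∀ s ≤ q, (FP R i a s ↔ a ∈ S i))
    (i : ℕ) {s : P} (hs : s ≤ q) :
    Fd {s | ∃ a, FP x i a s ∧ FP R i a s} s ↔ i ∈ {i | g i ∈ S i} := by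
  refine neg_fd ?_ ?_ hs
  · rintro p r ⟨a, h1, h2⟩ hr
    exact ⟨a, h1.mono hr, h2.mono hr⟩
  · intro t ht
    constructor
    · rintro ⟨a, h1, h2⟩
      rw [hx i a t ht] at h1
      rw [hR i a t ht] at h2
      subst h1
      exact h2
    · intro he
      exact ⟨g i, (hx i _ t ht).2 rfl, (hR i _ t ht).2 he⟩

/-- the relation defining the cut -/
def nR (D : NegData P) : Name P := relN3 (fun k i v => {_p | v < D.n k i})

theorem neg_fd_K {x : Name P} {q : P} {g : ℕ → ℕ}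
    (hx : ∀ i a, ∀ s ≤ q, (FP x i a s ↔ a = g i)) (K i : ℕ) {s : P} (hs : s ≤ q) :
    Fd {s | ∃ a, FP x i a s ∧ FP3 (nR D) K i a s} s ↔ i ∈ {i | g i < D.n K i} := by
  refine neg_fd ?_ ?_ hs
  · rintro p r ⟨a, h1, h2⟩ hr
    exact ⟨a, h1.mono hr, h2.mono hr⟩
  · intro t ht
    have key : ∀ a, FP3 (nR D) K i a t ↔ a < D.n K i := by
      intro a
      unfold nR
      rw [fp3_relN3, fd_const]
    constructor
    · rintro ⟨a, h1, h2⟩
      rw [hx i a t ht] at h1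
      rw [key] at h2
      subst h1
      exact h2
    · intro he
      exact ⟨g i, (hx i _ t ht).2 rfl, (key _).2 he⟩

/-- `NCut` for a ground model function, one direction -/
theorem neg_cut_of (hG : ST_gen) (hD : Pool.Agent.Helper64.PC.Dist P) {x : Name P} {p : P} {g f : ℕ → ℕ}
    (hx : ∀ i a, ∀ s ≤ p, (FP x i a s ↔ a = g i)) (hU : D.U {i | g i ≤ f (D.π i)} p) :
    NCut (genF D) (gn D.π) x p := by
  intro p' hp'
  refine ⟨p', le_rfl, gn (fun i => min (g i) (f (D.π i))), nfun_gn _ _, ?_, ?_⟩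
  · rw [neg_mem D hG hD (Y := {i | g i = min (g i) (f (D.π i))}) (fun i s hs =>
      neg_fd_eq (fun i a s hs => hx i a s (hs.trans hp')) (fun i a s _ => fp_gn _ i a s) i hs)]
    refine D.up _ _ _ (fun i hi => ?_) (D.mono _ _ _ hU hp')
    have hi' : g i ≤ f (D.π i) := hi
    show g i = min (g i) (f (D.π i))
    rw [min_eq_left hi']
  · intro j s _
    refine ⟨s, le_rfl, f j + 1, fun i a t' _ h1 h2 => ?_⟩
    rw [fp_gn] at h1 h2
    rw [h2, h1]
    exact Nat.lt_succ_of_le (min_le_right _ _)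

/-- `NCut`, other direction -/
theorem neg_cut_to (hG : ST_gen) (hD : Pool.Agent.Helper64.PC.Dist P) {x : Name P} {p : P} (hx : NFun x p)
    (hc : NCut (genF D) (gn D.π) x p) (p' : P) (hp' : p' ≤ p) :
    ∃ r ≤ p', ∃ g : ℕ → ℕ, (∀ i a, ∀ s ≤ r, (FP x i a s ↔ a = g i)) ∧
      ∃ f : ℕ → ℕ, D.U {i | g i ≤ f (D.π i)} r := by
  obtain ⟨r, hr, n, hn, hF, hb⟩ := hc p' hp'
  obtain ⟨r1, hr1, g, hg⟩ := neg_dec hD (hx.mono (hr.trans hp'))
  obtain ⟨r2, hr2, h, hh⟩ := neg_dec hD (hn.mono hr1)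
  have hg2 : ∀ i a, ∀ s ≤ r2, (FP x i a s ↔ a = g i) := fun i a s hs => hg i a s (hs.trans hr2)
  have hF2 := fmem_mono hF (hr2.trans hr1)
  rw [neg_mem D hG hD (Y := {i | g i = h i}) (fun i s hs => neg_fd_eq hg2 hh i hs)] at hF2
  have hb' : ∀ j, ∃ b, ∀ i, D.π i = j → h i < b := by
    intro j
    obtain ⟨t, ht, b, hb⟩ := hb j r2 (hr2.trans hr1)
    refine ⟨b, fun i hi => ?_⟩
    exact hb i (h i) t le_rfl ((fp_gn _ _ _ _).2 hi.symm) ((hh i _ t ht).2 rfl)
  choose f hf using hb'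
  refine ⟨r2, (hr2.trans hr1).trans hr, g, hg2, f, D.up _ _ _ (fun i hi => ?_) hF2⟩
  have hi' : g i = h i := hi
  show g i ≤ f (D.π i)
  rw [hi']
  exact (hf (D.π i) i rfl).le

theorem neg_not_internal (hG : ST_gen) (hE : ST_ext) (hD : Pool.Agent.Helper64.PC.Dist P) (R : Name P) (p : P)
    (h : ∀ x, ∀ q ≤ p, NFun x q → (NCut (genF D) (gn D.π) x q ↔
      FMem (rho fun i => {s | ∃ a, FP x i a s ∧ FP R i a s}) (genF D) q)) : False := by
  obtain ⟨p1, hp1, S, hS⟩ := neg_decR hD R p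
  refine hE P D S p1 ?_ ?_
  · intro x q hq hU
    have hx : ∀ i a, ∀ s ≤ q, (FP (gn x : Name P) i a s ↔ a = x i) :=
      fun i a s _ => fp_gn x i a s
    have h1 := (h (gn x) q (hq.trans hp1) (nfun_gn x q)).2
      ((neg_mem D hG hD (Y := {i | x i ∈ S i}) (fun i s hs =>
        neg_fd_rel hx (fun i a s hs => hS i a s (hs.trans hq)) i hs)).2 hU)
    obtain ⟨r, hr, g, hg, f, hf⟩ := neg_cut_to D hG hD (nfun_gn x q) h1 q le_rfl
    refine ⟨r, hr, f, ?_⟩
    have : g = x := by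
      funext i
      have h2 := (hg i (g i) r le_rfl).2 rfl
      rwa [fp_gn] at h2
    rwa [this] at hf
  · intro x f hxf
    have hx : ∀ i a, ∀ s ≤ p1, (FP (gn x : Name P) i a s ↔ a = x i) :=
      fun i a s _ => fp_gn x i a s
    have hU : D.U {i | x i ≤ f (D.π i)} p1 :=
      D.up _ _ _ (fun i _ => hxf i) (neg_univ D p1)
    have h1 := (h (gn x) p1 hp1 (nfun_gn x p1)).1 (neg_cut_of D hG hD hx hU)
    exact (neg_mem D hG hD (Y := {i | x i ∈ S i}) (fun i s hs =>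
        neg_fd_rel hx hS i hs)).1 h1

theorem neg_delta (hG : ST_gen) (hD : Pool.Agent.Helper64.PC.Dist P) {x : Name P} {p : P} (hx : NFun x p) :
    NCut (genF D) (gn D.π) x p ↔ ∀ K,
      FMem (rho fun i => {s | ∃ a, FP x i a s ∧ FP3 (nR D) K i a s}) (genF D) p := by
  constructor
  · intro hc K
    refine fmem_dense fun t ht => ?_
    obtain ⟨r, hr, g, hg, f, hf⟩ := neg_cut_to D hG hD hx hc t ht
    refine ⟨r, hr, ?_⟩
    rw [neg_mem D hG hD (Y := {i | g i < D.n K i}) (fun i s hs => neg_fd_K D hg K i hs)]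
    refine D.up _ _ _ (fun i hi => ?_) (D.inter _ _ _ hf (D.large f K r))
    have h1 : g i ≤ f (D.π i) := hi.1
    have h2 : f (D.π i) < D.n K i := hi.2
    exact lt_of_le_of_lt h1 h2
  · intro h p' hp'
    obtain ⟨r, hr, g, hg⟩ := neg_dec hD (hx.mono hp')
    have hU : ∀ K, D.U {i | g i < D.n K i} r := by
      intro K
      rw [← neg_mem D hG hD (Y := {i | g i < D.n K i}) (fun i s hs => neg_fd_K D hg K i hs)]
      exact fmem_mono (h K) (hr.trans hp')
    obtain ⟨q2, hq2, f, hf⟩ := D.cut g r hU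
    have hc := neg_cut_of D hG hD (fun i a s hs => hg i a s (hs.trans hq2)) hf
    obtain ⟨r', hr', hrest⟩ := hc q2 le_rfl
    exact ⟨r', hr'.trans (hq2.trans hr), hrest⟩

end

theorem st_neg : ST_fun → ST_ultra → ST_part → ST_cut → ST_int → ST_intK → ST_gen → ST_ext →
    ST_neg := by
  intro hfun hultra hpart hcut hint hintK hG hE P _ _ hD D p q _ hq1
  have hq1' := hq1 omega (hs _) (genF D) (hs _) (gn D.π) (hs _)
  set v : Fin 3 → Name P := Fin.cons (gn D.π) (Fin.cons (genF D) (Fin.cons omega Fin.elim0))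
    with hv
  have v0 : v 0 = gn D.π := rfl
  have v1 : v 1 = genF D := rfl
  have v2 : v 2 = omega := rfl
  have hw : ∀ r : P, FEq (v 2) omega r := fun r => feq_refl _ _
  have hNU : ∀ r, NUltra (v 1) r := fun r => (hG P D hD).2 r
  have h1 : Fo (.imp (.isOmega 2) (.imp (Fm.isNPUltra 2 1) (.imp (Fm.isSmallPartition 2 1 0)
      (.imp (.neg (Fm.cutInternal 2 1 0)) (.neg (Fm.cutDelta 2 1 0)))))) v q := hq1'
  rw [fo_imp] at h1
  have h2 := h1 q le_rfl ((fo_isOmega v 2 q).2 (hw q))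
  rw [fo_imp] at h2
  have h3 := h2 q le_rfl ((hultra P 3 v 2 1 q (hw q)).2 (hNU q))
  rw [fo_imp] at h3
  have h4 := h3 q le_rfl ((hpart P 3 v 2 1 0 q (hw q) (hNU q)).2 ⟨nfun_gn _ _, fun j r _ => by
      obtain ⟨i, hi⟩ := D.surj j
      exact ⟨r, le_rfl, i, (fp_gn _ _ _ _).2 hi.symm⟩, fun j r _ hmem => by
      have key : ∀ i, ∀ s ≤ r, (Fd {s | FP (v 0) i j s} s ↔ i ∈ {i | D.π i = j}) := by
        intro i s hs'
        have e1 : ∀ a b : P, a ∈ {s | FP (v 0) i j s} → b ≤ a → b ∈ {s | FP (v 0) i j s} :=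
          fun a b ha hb => FP.mono (f := v 0) (n := i) (m := j) ha hb
        have e2 : ∀ s ≤ r, (s ∈ {s | FP (v 0) i j s} ↔ D.π i = j) := by
          intro s _
          show FP (v 0) i j s ↔ D.π i = j
          rw [v0, fp_gn]
          exact eq_comm
        exact neg_fd e1 e2 hs'
      exact D.small j r ((neg_mem D hG hD key).1 hmem)⟩)
  rw [fo_imp] at h4
  have h5 := h4 q le_rfl (by
    rw [fo_neg]
    intro r hr hint'
    unfold Fm.cutInternal at hint'
    rw [fo_ex] at hint'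
    obtain ⟨r1, hr1, R, hR⟩ := hint' r le_rfl
    refine neg_not_internal D hG hE hD R r1 fun x s hs' hx => ?_
    have h6 := (fo_all _ _ _).1 hR x
    rw [fo_imp] at h6
    have hw' : FEq ((Fin.cons x (Fin.cons R v) : Fin 5 → Name P) (Fin.succ (Fin.succ 2))) omega s :=
      feq_refl _ _
    have h7 := h6 s hs' ((hfun P 5 (Fin.cons x (Fin.cons R v)) (Fin.succ (Fin.succ 2)) 0 s hw').2 hx)
    rw [fo_iff] at h7
    have h8 := h7 s le_rfl
    rw [show Fo (Fm.inCut (Fin.succ (Fin.succ 2)) (Fin.succ (Fin.succ 1)) (Fin.succ (Fin.succ 0)) 0)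
        (Fin.cons x (Fin.cons R v) : Fin 5 → Name P) s ↔ NCut (genF D) (gn D.π) x s from
      hcut P 5 (Fin.cons x (Fin.cons R v)) (Fin.succ (Fin.succ 2)) (Fin.succ (Fin.succ 1))
        (Fin.succ (Fin.succ 0)) 0 s hw' (hNU s) (nfun_gn _ _) hx] at h8
    rw [show Fo (Fm.inInt (Fin.succ (Fin.succ 1)) 1 0)
        (Fin.cons x (Fin.cons R v) : Fin 5 → Name P) s ↔
        FMem (rho fun i => {s | ∃ a, FP x i a s ∧ FP R i a s}) (genF D) s from
      hint P 5 (Fin.cons x (Fin.cons R v)) (Fin.succ (Fin.succ 1)) 1 0 s (hNU s) hx] at h8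
    exact h8)
  rw [fo_neg] at h5
  refine h5 q le_rfl ?_
  unfold Fm.cutDelta
  rw [fo_ex]
  intro r _
  refine ⟨r, le_rfl, nR D, ?_⟩
  rw [fo_all]
  intro x
  rw [fo_imp]
  intro s _ hx
  have hw' : ∀ s, FEq ((Fin.cons x (Fin.cons (nR D) v) : Fin 5 → Name P)
      (Fin.succ (Fin.succ 2))) omega s := fun s => feq_refl _ _
  have hx' : NFun x s := (hfun P 5 (Fin.cons x (Fin.cons (nR D) v)) (Fin.succ (Fin.succ 2)) 0 s
    (hw' s)).1 hx
  rw [fo_iff]
  intro t ht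
  rw [fo_all_omega (Fm.inIntK (Fin.succ (Fin.succ (Fin.succ 1))) 2 0 1)
    (Fin.cons x (Fin.cons (nR D) v) : Fin 5 → Name P) (Fin.succ (Fin.succ 2)) (hw' t)]
  rw [show Fo (Fm.inCut (Fin.succ (Fin.succ 2)) (Fin.succ (Fin.succ 1)) (Fin.succ (Fin.succ 0)) 0)
        (Fin.cons x (Fin.cons (nR D) v) : Fin 5 → Name P) t ↔ NCut (genF D) (gn D.π) x t from
      hcut P 5 (Fin.cons x (Fin.cons (nR D) v)) (Fin.succ (Fin.succ 2)) (Fin.succ (Fin.succ 1))
        (Fin.succ (Fin.succ 0)) 0 t (hw' t) (hNU t) (nfun_gn _ _) (hx'.mono ht)]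
  rw [neg_delta D hG hD (hx'.mono ht)]
  refine forall_congr' fun K => ?_
  exact (hintK P 6 (Fin.cons (num K) (Fin.cons x (Fin.cons (nR D) v)))
    (Fin.succ (Fin.succ (Fin.succ 1))) 2 0 1 t K (hNU t) (hx'.mono ht) (feq_refl _ _)).symm

end Pool.Agent.Helper58.PC
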